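import Pool.Agent.STR.Stmts

/-!
# Squad STR, module DUAL: an optimal matching has an integral potential
-/

set_option autoImplicit false

namespace Pool.Agent.STR.H11

open Finset Pool.Agent.STR

variable {α : Type} [Fintype α] [DecidableEq α]

/-- Integral Lipschitz potentials. -/
def ZLip (h : (α → Bool) → ℤ) : Prop := ∀ x i, |h (fl x i) - h x| ≤ 1

omit [Fintype α] in
lemma fl_fl (x : α → Bool) (i : α) : fl (fl x i) i = x := by
  funext j
  by_cases hj : j = i
  · subst hj
    simp [fl]
  · simp [fl, Function.update_of_ne hj]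

lemma hd_fl (x y : α → Bool) (i : α) (hi : x i ≠ y i) :
    hammingDist (fl x i) y + 1 = hammingDist x y := by
  have h1 : (univ.filter fun j => (fl x i) j ≠ y j) = (univ.filter fun j => x j ≠ y j).erase i := by
    ext j
    by_cases hj : j = i
    · subst hj
      have : (fl x j) j = y j := by
        simp only [fl, Function.update_self]
        cases hx : x j <;> cases hy : y j <;> simp_all
      simp [this]
    · have : (fl x i) j = x j := by
        simp [fl, Function.update_of_ne hj]
      simp [this, hj]
  have h2 : i ∈ (univ.filter fun j => x j ≠ y j) := by simp [hi]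
  unfold hammingDist
  rw [h1]
  exact Finset.card_erase_add_one h2

lemma hd_fl_self (x : α → Bool) (i : α) : hammingDist x (fl x i) ≤ 1 := by
  have h := hd_fl x (fl x i) i (by simp [fl])
  rw [hammingDist_self] at h
  omega

lemma zlip_dist {h : (α → Bool) → ℤ} (hh : ZLip h) :
    ∀ (n : ℕ) (x y : α → Bool), hammingDist x y = n → h y - h x ≤ n := by
  intro n
  induction n with
  | zero =>
    intro x y hxy
    have : x = y := hammingDist_eq_zero.mp hxy
    subst this
    simp
  | succ n ih =>
    intro x y hxy
    have hne : x ≠ y := by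
      intro he
      subst he
      simp at hxy
    obtain ⟨i, hi⟩ := Function.ne_iff.mp hne
    have h1 := hd_fl x y i hi
    have h2 := ih (fl x i) y (by omega)
    have h3 := abs_le.mp (hh x i)
    push_cast
    linarith [h3.2]

/-- The value of a potential. -/
def J {X : Type} [Fintype X] (p q : X → (α → Bool)) (h : (α → Bool) → ℤ) : ℤ :=
  ∑ x, h (q x) - ∑ x, h (p x)

lemma exists_max {X : Type} [Fintype X] (p q : X → (α → Bool)) :
    ∃ h : (α → Bool) → ℤ, ZLip h ∧ ∀ h', ZLip h' → J p q h' ≤ J p q h := by
  obtain ⟨ub, ⟨h, hh, hJ⟩, hmax⟩ := Int.exists_greatest_of_bdd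
    (P := fun z => ∃ h : (α → Bool) → ℤ, ZLip h ∧ J p q h = z)
    ⟨∑ x, (hammingDist (p x) (q x) : ℤ), by
      rintro z ⟨h, hh, rfl⟩
      unfold J
      rw [← Finset.sum_sub_distrib]
      exact Finset.sum_le_sum fun x _ => zlip_dist hh _ _ _ rfl⟩
    ⟨0, fun _ => 0, by intro x i; simp, by simp [J]⟩
  exact ⟨h, hh, fun h' hh' => by rw [hJ]; exact hmax _ ⟨h', hh', rfl⟩⟩

theorem dual : DualStmt := by
  intro X α _ _ _ _ p q
  obtain ⟨h, hh, hmax⟩ := exists_max p q
  let t : X → Finset X := fun x =>
    univ.filter fun y => h (q y) - h (p x) = hammingDist (p x) (q y)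
  have hall : ∀ S : Finset X, S.card ≤ (S.biUnion t).card := by
    intro S
    let B : Finset (α → Bool) :=
      univ.filter fun m => ∃ x ∈ S, h m - h (p x) = hammingDist (p x) m
    have hB : ∀ m, m ∈ B ↔ ∃ x ∈ S, h m - h (p x) = hammingDist (p x) m := by
      intro m
      simp [B]
    have key : ∀ m i, m ∈ B → fl m i ∉ B → h (fl m i) ≤ h m := by
      intro m i hm hm'
      by_contra hlt
      push Not at hlt
      apply hm'
      rw [hB] at hm ⊢
      obtain ⟨x, hx, hxm⟩ := hm
      refine ⟨x, hx, le_antisymm (zlip_dist hh _ _ _ rfl) ?_⟩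
      have h1 : hammingDist (p x) (fl m i) ≤ hammingDist (p x) m + hammingDist m (fl m i) :=
        hammingDist_triangle _ _ _
      have h2 := hd_fl_self m i
      have h3 : (hammingDist (p x) (fl m i) : ℤ) ≤ hammingDist (p x) m + 1 := by
        exact_mod_cast h1.trans (by omega)
      linarith
    have hh' : ZLip fun m => h m - if m ∈ B then 1 else 0 := by
      intro m i
      have h1 := abs_le.mp (hh m i)
      rw [abs_le]
      by_cases hm : m ∈ B <;> by_cases hm' : fl m i ∈ B
      · simp only [hm, hm', if_true]
        constructor <;> linarith [h1.1, h1.2]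
      · have h2 := key m i hm hm'
        simp only [hm, hm', if_true, if_false]
        constructor <;> linarith [h1.1, h1.2]
      · have h2 := key (fl m i) i hm' (by rw [fl_fl]; exact hm)
        rw [fl_fl] at h2
        simp only [hm, hm', if_true, if_false]
        constructor <;> linarith [h1.1, h1.2]
      · simp only [hm, hm', if_false]
        constructor <;> linarith [h1.1, h1.2]
    have hJ := hmax _ hh'
    unfold J at hJ
    simp only [Finset.sum_sub_distrib] at hJ
    have hq : (∑ x, if q x ∈ B then (1 : ℤ) else 0) = ((S.biUnion t).card : ℤ) := by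
      rw [Finset.sum_boole]
      congr 2
      ext y
      simp only [Finset.mem_filter, Finset.mem_univ, true_and, Finset.mem_biUnion, t, hB]
    have hp : (S.card : ℤ) ≤ ∑ x, if p x ∈ B then (1 : ℤ) else 0 := by
      rw [Finset.sum_boole]
      have : S ⊆ univ.filter fun x => p x ∈ B := by
        intro x hx
        simp only [Finset.mem_filter, Finset.mem_univ, true_and, hB]
        exact ⟨x, hx, by simp⟩
      exact_mod_cast Finset.card_le_card this
    have : (S.card : ℤ) ≤ ((S.biUnion t).card : ℤ) := by
      rw [hq] at hJ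
      linarith
    exact_mod_cast this
  obtain ⟨f, hf, hft⟩ := (Finset.all_card_le_biUnion_card_iff_exists_injective t).mp hall
  have hbij : Function.Bijective f := Finite.injective_iff_bijective.mp hf
  refine ⟨Equiv.ofBijective f hbij, fun x => (h x : ℝ), ?_, ?_⟩
  · intro x i
    have := hh x i
    change |((h (fl x i) : ℤ) : ℝ) - (h x : ℝ)| ≤ 1
    exact_mod_cast this
  · have h1 : ∀ x, (hammingDist (p x) (q (f x)) : ℤ) = h (q (f x)) - h (p x) := by
      intro x
      have := hft x
      simp only [t, Finset.mem_filter, Finset.mem_univ, true_and] at this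
      exact this.symm
    have h2 : ∑ x, (hammingDist (p x) (q (f x)) : ℤ) = ∑ x, h (q x) - ∑ x, h (p x) := by
      rw [Finset.sum_congr rfl fun x _ => h1 x, Finset.sum_sub_distrib]
      congr 1
      exact (Equiv.ofBijective f hbij).sum_comp fun y => h (q y)
    have h3 : (∑ x, (hammingDist (p x) (q (f x)) : ℝ)) = ∑ x, (h (q x) : ℝ) - ∑ x, (h (p x) : ℝ) := by
      exact_mod_cast h2
    exact h3.le

end Pool.Agent.STR.H11
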